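import Pool.Agent.Helper3.CM.Exist2

/-!
# Counting Camina and Miller groups: the algebra of the family

`K` a finite field, `c : Fin n → K`, `ps z = (tr (c i z))_i`; the commutator map `ps (x y' - y x') + X (x, x')` and the
power map `C(p,2) ps (x y) + S x + Q y`.
-/

set_option autoImplicit false

namespace Pool.Agent.Helper79.CMC

open Pool.Agent.Helper3.CM Module

variable {p : ℕ} [Fact p.Prime] {K : Type*} [Field K] [Finite K] [Algebra (ZMod p) K] {n : ℕ} (c : Fin n → K)

/-- `ps z = (tr (c i z))_i` -/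
noncomputable def ps : K →ₗ[ZMod p] (Fin n → ZMod p) :=
  LinearMap.pi fun i => (Algebra.trace (ZMod p) K).comp (LinearMap.mulLeft (ZMod p) (c i))

omit [Finite K] in
theorem ps_apply (z : K) (i : Fin n) : ps (p := p) c z i = Algebra.trace (ZMod p) K (c i * z) := rfl

/-- `δ μ (x, x') = ps (x μ x' - x' μ x)` -/
noncomputable def del (μ : K →ₗ[ZMod p] K) (x x' : K) : Fin n → ZMod p := ps c (x * μ x' - x' * μ x)

/-- the commutator map -/
noncomputable def BX (X : K →ₗ[ZMod p] K →ₗ[ZMod p] (Fin n → ZMod p)) :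
    (K × K) →ₗ[ZMod p] (K × K) →ₗ[ZMod p] (Fin n → ZMod p) :=
  BB c + X.compl₁₂ (LinearMap.fst (ZMod p) K K) (LinearMap.fst (ZMod p) K K)

omit [Finite K] in
theorem BX_apply (X : K →ₗ[ZMod p] K →ₗ[ZMod p] (Fin n → ZMod p)) (v w : K × K) :
    BX c X v w = ps c (v.1 * w.2 - v.2 * w.1) + X v.1 w.1 := rfl

/-- the power map -/
noncomputable def pX (S : K → (Fin n → ZMod p)) (Q : K →ₗ[ZMod p] (Fin n → ZMod p)) (v : K × K) : Fin n → ZMod p :=
  (p.choose 2) • ps c (v.1 * v.2) + S v.1 + Q v.2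

omit [Finite K] in
theorem BX_self (X : K →ₗ[ZMod p] K →ₗ[ZMod p] (Fin n → ZMod p)) (hX : ∀ x, X x x = 0) (v : K × K) :
    BX c X v v = 0 := by
  rw [BX_apply, hX, add_zero, mul_comm v.2 v.1, sub_self, map_zero]

theorem BX_surj (hc : LinearIndependent (ZMod p) c) (X : K →ₗ[ZMod p] K →ₗ[ZMod p] (Fin n → ZMod p)) (v : K × K)
    (hv : v ≠ 0) : Function.Surjective (BX c X v) := by
  intro w
  obtain ⟨z, hz⟩ := tr_surj c hc w
  have hz' : ps c z = w := by
    ext i
    rw [ps_apply, hz]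
  by_cases h1 : v.1 = 0
  · have h2 : v.2 ≠ 0 := fun h2 => hv (Prod.ext h1 h2)
    refine ⟨(-z / v.2, 0), ?_⟩
    rw [BX_apply, h1, map_zero, LinearMap.zero_apply, add_zero, zero_mul, zero_sub, ← hz']
    congr 1
    field_simp
  · refine ⟨(0, z / v.1), ?_⟩
    rw [BX_apply, map_zero, add_zero, mul_zero, sub_zero, ← hz']
    congr 1
    field_simp

omit [Finite K] in
theorem choose_two_smul {W : Type*} [AddCommGroup W] [Module (ZMod p) W] (w : W) :
    (p.choose 2) • (w + w) = 0 := by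
  have h2 : (p.choose 2 * 2) • w = 0 := by
    rw [Nat.choose_two_right, Nat.div_mul_cancel (even_iff_two_dvd.1 (Nat.even_mul_pred_self p)),
      mul_comm, mul_smul, Real.p_nsmul (p := p) w, smul_zero]
  rw [mul_smul, two_smul] at h2
  exact h2

omit [Finite K] in
theorem pX_add (X : K →ₗ[ZMod p] K →ₗ[ZMod p] (Fin n → ZMod p)) (S : K → (Fin n → ZMod p))
    (hS : ∀ x x', S (x + x') = S x + S x' + (p.choose 2) • X x' x)
    (Q : K →ₗ[ZMod p] (Fin n → ZMod p)) (v w : K × K) :
    pX c S Q (v + w) = pX c S Q v + pX c S Q w + (p.choose 2) • BX c X w v := by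
  unfold pX
  rw [BX_apply, Prod.fst_add, Prod.snd_add, hS, map_add]
  have h1 : (v.1 + w.1) * (v.2 + w.2) = v.1 * v.2 + w.1 * w.2 + (w.1 * v.2 - w.2 * v.1) + (v.1 * w.2 + v.1 * w.2) := by
    ring
  rw [h1]
  simp only [map_add, smul_add]
  have h2 := choose_two_smul (p := p) (ps (p := p) c (v.1 * w.2))
  rw [smul_add] at h2
  rw [h2]
  abel

/-- the kernel and the image of the first component -/
theorem fst_cases (hadj : Algebra.adjoin (ZMod p) (Set.range c) = ⊤) (i₀ : Fin n) (h0 : c i₀ = 1)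
    (φ ψ : K →ₗ[ZMod p] K) (hinj : ∀ y, φ y = 0 → ψ y = 0 → y = 0)
    (hort : ∀ y y', φ y' = 0 → ps (p := p) c (φ y * ψ y') = 0) :
    (∀ y, φ y = 0) ∨ Function.Surjective φ := by
  have hfin : Module.Finite (ZMod p) K := Module.Finite.of_finite
  let T : LinearMap.BilinForm (ZMod p) K := Algebra.traceForm (ZMod p) K
  have hT : ∀ a b, T a b = Algebra.trace (ZMod p) K (a * b) := fun a b => Algebra.traceForm_apply _ a b
  have hnd : T.Nondegenerate := traceForm_nondegenerate (ZMod p) K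
  have hrefl : T.IsRefl := by
    intro a b h
    rw [hT] at h ⊢
    rw [mul_comm]
    exact h
  set D : Submodule (ZMod p) K := LinearMap.range φ with hD
  let ψ' : LinearMap.ker φ →ₗ[ZMod p] K := ψ.domRestrict (LinearMap.ker φ)
  set E : Submodule (ZMod p) K := LinearMap.range ψ' with hE
  have hψ' : Function.Injective ψ' := by
    rw [injective_iff_map_eq_zero]
    rintro ⟨y, hy⟩ h
    exact Subtype.ext (hinj y hy h)
  have hEr : finrank (ZMod p) E = finrank (ZMod p) (LinearMap.ker φ) := LinearMap.finrank_range_of_inj hψ'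
  have hrn : finrank (ZMod p) D + finrank (ZMod p) (LinearMap.ker φ) = finrank (ZMod p) K :=
    LinearMap.finrank_range_add_finrank_ker φ
  have hle : E ≤ T.orthogonal D := by
    rintro _ ⟨⟨y', hy'⟩, rfl⟩
    rw [LinearMap.BilinForm.mem_orthogonal_iff]
    rintro _ ⟨y, rfl⟩
    have h1 := congrFun (hort y y' hy') i₀
    rw [ps_apply, h0, one_mul] at h1
    rw [hT]
    exact h1
  have hEq : E = T.orthogonal D := by
    apply Submodule.eq_of_le_of_finrank_eq hle
    rw [hEr, LinearMap.BilinForm.finrank_orthogonal hnd]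
    omega
  have hDE : T.orthogonal E = D := by
    rw [hEq, LinearMap.BilinForm.orthogonal_orthogonal hnd hrefl]
  have hst : ∀ i, ∀ d ∈ D, c i * d ∈ D := by
    rintro i _ ⟨y, rfl⟩
    rw [← hDE, LinearMap.BilinForm.mem_orthogonal_iff]
    rintro _ ⟨⟨y', hy'⟩, rfl⟩
    have h1 := congrFun (hort y y' hy') i
    rw [ps_apply] at h1
    have h2 : T (ψ' ⟨y', hy'⟩) (c i * φ y) = Algebra.trace (ZMod p) K (c i * (φ y * ψ y')) := by
      rw [hT]
      congr 1
      change ψ y' * (c i * φ y) = _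
      ring
    rw [h2]
    exact h1
  let Q : Subalgebra (ZMod p) K :=
    { carrier := {l | ∀ d ∈ D, l * d ∈ D}
      mul_mem' := by
        intro a b ha hb d hd
        rw [mul_assoc]
        exact ha _ (hb d hd)
      add_mem' := by
        intro a b ha hb d hd
        rw [add_mul]
        exact D.add_mem (ha d hd) (hb d hd)
      algebraMap_mem' := by
        intro a d hd
        rw [← Algebra.smul_def]
        exact D.smul_mem a hd }
  have hQ : Q = ⊤ := by
    rw [eq_top_iff, ← hadj]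
    apply Algebra.adjoin_le
    rintro _ ⟨i, rfl⟩
    exact hst i
  by_cases hz : ∀ y, φ y = 0
  · exact Or.inl hz
  · right
    push Not at hz
    obtain ⟨y, hy⟩ := hz
    intro z
    have h1 : z / φ y ∈ Q := by
      rw [hQ]
      exact Algebra.mem_top
    have h2 : z / φ y * φ y ∈ D := h1 _ ⟨y, rfl⟩
    rw [div_mul_cancel₀ _ hy] at h2
    exact h2

end Pool.Agent.Helper79.CMC
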