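import Pool.Agent.Helper3.CM.Defs

/-!
# Counting Camina and Miller groups: definitions
-/

set_option autoImplicit false

namespace Pool.Agent.Helper79.CMC

open Pool.Agent.Helper3.CM

/-- `G` is a finite `p`-group which is both a Camina group and a Miller group, with `|G : G'| = p ^ m` and
`|G'| = p ^ n`. -/
def CamMil (p m n : ℕ) (G : Type) [Group G] : Prop :=
  Finite G ∧ IsPGroup p G ∧ IsCamina G ∧ IsMiller G ∧ (commutator G).index = p ^ m ∧ Nat.card (commutator G) = p ^ n

/-- The groups `G` with `CamMil p m n G` form exactly `N` isomorphism classes: there are `N` such groups, pairwise not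
isomorphic, such that every such group is isomorphic to one of them. -/
def IsCount (p m n N : ℕ) : Prop :=
  ∃ (G : Fin N → Type) (_ : ∀ i, Group (G i)), (∀ i, CamMil p m n (G i)) ∧
    (∀ i j, Nonempty (G i ≃* G j) → i = j) ∧
    ∀ (H : Type) [Group H], CamMil p m n H → ∃ i, Nonempty (H ≃* G i)

end Pool.Agent.Helper79.CMC
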