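import Pool.Agent.Helper3.CM.Realize

/-!
# Counting Camina and Miller groups: the number of alternating maps
-/

set_option autoImplicit false

namespace Pool.Agent.Helper79.CMC

open Pool.Agent.Helper3.CM Module

variable {p : ℕ} [Fact p.Prime]

/-- pairs `(j, i)` with `i < j` -/
abbrev Pr (m : ℕ) : Type := (j : Fin m) × Fin (j : ℕ)

/-- the smaller index -/
def lo {m : ℕ} (q : Pr m) : Fin m := Fin.castLE q.1.2.le q.2

theorem lo_lt {m : ℕ} (q : Pr m) : lo q < q.1 := by
  rw [Fin.lt_def]
  exact q.2.2

theorem card_Pr (m : ℕ) : Nat.card (Pr m) = m * (m - 1) / 2 := by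
  rw [Nat.card_eq_fintype_card, Fintype.card_sigma]
  simp only [Fintype.card_fin]
  rw [Fin.sum_univ_eq_sum_range (fun i => i) m, Finset.sum_range_id]

section alt

variable {V W : Type*} [AddCommGroup V] [Module (ZMod p) V] [AddCommGroup W] [Module (ZMod p) W]
  {m : ℕ} (b : Basis (Fin m) (ZMod p) V)

/-- the alternating map with given values -/
noncomputable def XM (M : Pr m → W) : V →ₗ[ZMod p] V →ₗ[ZMod p] W :=
  LinearMap.mk₂ (ZMod p)
    (fun x y => ∑ q : Pr m, (b.repr x (lo q) * b.repr y q.1 - b.repr x q.1 * b.repr y (lo q)) • M q)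
    (by
      intro x x' y
      rw [← Finset.sum_add_distrib]
      refine Finset.sum_congr rfl fun q _ => ?_
      rw [← add_smul, map_add, Finsupp.add_apply, Finsupp.add_apply]
      congr 1
      ring)
    (by
      intro s x y
      rw [Finset.smul_sum]
      refine Finset.sum_congr rfl fun q _ => ?_
      rw [smul_smul, map_smul, Finsupp.smul_apply, Finsupp.smul_apply, smul_eq_mul, smul_eq_mul]
      congr 1
      ring)
    (by
      intro x y y'
      rw [← Finset.sum_add_distrib]
      refine Finset.sum_congr rfl fun q _ => ?_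
      rw [← add_smul, map_add, Finsupp.add_apply, Finsupp.add_apply]
      congr 1
      ring)
    (by
      intro s x y
      rw [Finset.smul_sum]
      refine Finset.sum_congr rfl fun q _ => ?_
      rw [smul_smul, map_smul, Finsupp.smul_apply, Finsupp.smul_apply, smul_eq_mul, smul_eq_mul]
      congr 1
      ring)

theorem XM_apply (M : Pr m → W) (x y : V) :
    XM b M x y = ∑ q : Pr m, (b.repr x (lo q) * b.repr y q.1 - b.repr x q.1 * b.repr y (lo q)) • M q := rfl

theorem XM_self (M : Pr m → W) (x : V) : XM b M x x = 0 := by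
  rw [XM_apply]
  refine Finset.sum_eq_zero fun q _ => ?_
  rw [mul_comm, sub_self, zero_smul]

theorem XM_basis (M : Pr m → W) (q : Pr m) : XM b M (b (lo q)) (b q.1) = M q := by
  classical
  rw [XM_apply, Finset.sum_eq_single q]
  · rw [b.repr_self, b.repr_self, Finsupp.single_eq_same, Finsupp.single_eq_same,
      Finsupp.single_eq_of_ne (lo_lt q).ne', zero_mul, sub_zero, mul_one, one_smul]
  · intro q' _ hne
    rw [b.repr_self, b.repr_self]
    by_cases h1 : q'.1 = q.1
    · have h2 : lo q' ≠ lo q := by
        intro h2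
        apply hne
        obtain ⟨j, i⟩ := q
        obtain ⟨j', i'⟩ := q'
        simp only at h1
        subst h1
        congr 1
        apply Fin.ext
        have h3 := congrArg Fin.val h2
        exact h3
      have h4 : q'.1 ≠ lo q := by
        rw [h1]
        exact (lo_lt q).ne'
      rw [Finsupp.single_eq_of_ne h2, Finsupp.single_eq_of_ne h4, zero_mul, zero_mul, sub_zero, zero_smul]
    · rw [Finsupp.single_eq_of_ne h1, mul_zero, zero_sub]
      by_cases h2 : q'.1 = lo q
      · have h3 : lo q' ≠ q.1 := by
          have h5 := lo_lt q'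
          have h6 := lo_lt q
          rw [h2] at h5
          exact (h5.trans h6).ne
        rw [Finsupp.single_eq_of_ne h3, mul_zero, neg_zero, zero_smul]
      · rw [Finsupp.single_eq_of_ne h2, zero_mul, neg_zero, zero_smul]
  · intro h
    exact absurd (Finset.mem_univ q) h

/-- an alternating map is determined by its values on the pairs of basis vectors -/
theorem alt_ext (X Y : V →ₗ[ZMod p] V →ₗ[ZMod p] W) (hX : ∀ x, X x x = 0) (hY : ∀ x, Y x x = 0)
    (h : ∀ q : Pr m, X (b (lo q)) (b q.1) = Y (b (lo q)) (b q.1)) : X = Y := by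
  have hneg : ∀ (Z : V →ₗ[ZMod p] V →ₗ[ZMod p] W), (∀ x, Z x x = 0) → ∀ x y, Z x y = - Z y x := by
    intro Z hZ x y
    have h := hZ (x + y)
    rw [map_add, map_add, LinearMap.add_apply, LinearMap.add_apply, hZ, hZ, zero_add, add_zero, add_comm] at h
    exact eq_neg_of_add_eq_zero_left h
  have hlt : ∀ i j : Fin m, i < j → X (b i) (b j) = Y (b i) (b j) := by
    intro i j hij
    have e := h ⟨j, ⟨i, hij⟩⟩
    exact e
  refine b.ext fun i => b.ext fun j => ?_
  rcases lt_trichotomy i j with h1 | h1 | h1
  · exact hlt i j h1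
  · subst h1
    rw [hX, hY]
  · rw [hneg X hX, hneg Y hY, hlt j i h1]

/-- the alternating maps -/
def Alt (p : ℕ) (V W : Type*) [AddCommGroup V] [Module (ZMod p) V] [AddCommGroup W] [Module (ZMod p) W] : Type _ :=
  {X : V →ₗ[ZMod p] V →ₗ[ZMod p] W // ∀ x, X x x = 0}

/-- alternating maps and their values -/
noncomputable def altEquiv : Alt p V W ≃ (Pr m → W) where
  toFun X := fun q => X.1 (b (lo q)) (b q.1)
  invFun M := ⟨XM b M, XM_self b M⟩
  left_inv := by
    rintro ⟨X, hX⟩
    apply Subtype.ext
    exact alt_ext b _ _ (XM_self b _) hX fun q => XM_basis b _ q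
  right_inv := by
    intro M
    funext q
    exact XM_basis b M q

include b in
theorem card_alt [Finite W] : Nat.card (Alt p V W) = Nat.card W ^ (m * (m - 1) / 2) := by
  rw [Nat.card_congr (altEquiv (W := W) b), Nat.card_fun, card_Pr]

include b in
theorem finite_alt [Finite W] : Finite (Alt p V W) :=
  Finite.of_equiv _ (altEquiv (W := W) b).symm

end alt

end Pool.Agent.Helper79.CMC
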