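import Pool.Agent.Helper3.CM.Struct
import Pool.Agent.Helper79.CMC.Param
import Pool.Agent.Helper79.CMC.Defs

/-!
# Counting Camina and Miller groups: the number of classes and the upper bound
-/

set_option autoImplicit false

namespace Pool.Agent.Helper79.CMC

open Pool.Agent.Helper3.CM Module

variable {p : ℕ} [Fact p.Prime]

section data

variable {V W : Type*} [AddCommGroup V] [Module (ZMod p) V] [AddCommGroup W] [Module (ZMod p) W]

/-- commutator maps and power maps -/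
structure IsDat (d : (V →ₗ[ZMod p] V →ₗ[ZMod p] W) × (V → W)) : Prop where
  alt : ∀ x, d.1 x x = 0
  pow : ∀ x y, d.2 (x + y) = d.2 x + d.2 y + (p.choose 2) • d.1 y x

/-- rigid data -/
structure IsRD (d : (V →ₗ[ZMod p] V →ₗ[ZMod p] W) × (V → W)) : Prop extends IsDat d where
  nv : Nontrivial V
  nw : Nontrivial W
  onto : ∀ x, x ≠ 0 → Function.Surjective (d.1 x)
  rig : Rigid d.1 d.2

/-- equivalence of data -/
def Eqv (d d' : (V →ₗ[ZMod p] V →ₗ[ZMod p] W) × (V → W)) : Prop :=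
  ∃ (g : V ≃ₗ[ZMod p] V) (h : W ≃ₗ[ZMod p] W), (∀ x y, d'.1 (g x) (g y) = h (d.1 x y)) ∧ ∀ x, d'.2 (g x) = h (d.2 x)

theorem eqv_refl (d : (V →ₗ[ZMod p] V →ₗ[ZMod p] W) × (V → W)) : Eqv d d :=
  ⟨LinearEquiv.refl _ _, LinearEquiv.refl _ _, fun _ _ => rfl, fun _ => rfl⟩

theorem eqv_symm {d d' : (V →ₗ[ZMod p] V →ₗ[ZMod p] W) × (V → W)} (h : Eqv d d') : Eqv d' d := by
  obtain ⟨g, h, h1, h2⟩ := h
  refine ⟨g.symm, h.symm, fun x y => ?_, fun x => ?_⟩
  · rw [LinearEquiv.eq_symm_apply, ← h1, LinearEquiv.apply_symm_apply, LinearEquiv.apply_symm_apply]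
  · rw [LinearEquiv.eq_symm_apply, ← h2, LinearEquiv.apply_symm_apply]

theorem eqv_trans {d d' d'' : (V →ₗ[ZMod p] V →ₗ[ZMod p] W) × (V → W)} (h : Eqv d d') (h' : Eqv d' d'') :
    Eqv d d'' := by
  obtain ⟨g, h, h1, h2⟩ := h
  obtain ⟨g', h', h1', h2'⟩ := h'
  refine ⟨g.trans g', h.trans h', fun x y => ?_, fun x => ?_⟩
  · rw [LinearEquiv.trans_apply, LinearEquiv.trans_apply, LinearEquiv.trans_apply, h1', h1]
  · rw [LinearEquiv.trans_apply, LinearEquiv.trans_apply, h2', h2]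

variable (p V W) in
/-- the rigid data as a type -/
abbrev RD : Type _ := {d : (V →ₗ[ZMod p] V →ₗ[ZMod p] W) × (V → W) // IsRD d}

variable (p V W) in
/-- equivalence on rigid data -/
def sd : Setoid (RD p V W) where
  r d d' := Eqv d.1 d'.1
  iseqv := ⟨fun d => eqv_refl d.1, fun h => eqv_symm h, fun h h' => eqv_trans h h'⟩

/-- the transported datum -/
noncomputable def tr (g : V ≃ₗ[ZMod p] V) (h : W ≃ₗ[ZMod p] W) (d : (V →ₗ[ZMod p] V →ₗ[ZMod p] W) × (V → W)) :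
    (V →ₗ[ZMod p] V →ₗ[ZMod p] W) × (V → W) :=
  ((d.1.compl₁₂ (g.symm : V →ₗ[ZMod p] V) (g.symm : V →ₗ[ZMod p] V)).compr₂ (h : W →ₗ[ZMod p] W),
    fun x => h (d.2 (g.symm x)))

theorem tr_fst (g : V ≃ₗ[ZMod p] V) (h : W ≃ₗ[ZMod p] W) (d : (V →ₗ[ZMod p] V →ₗ[ZMod p] W) × (V → W)) (x y : V) :
    (tr g h d).1 x y = h (d.1 (g.symm x) (g.symm y)) := rfl

theorem tr_snd (g : V ≃ₗ[ZMod p] V) (h : W ≃ₗ[ZMod p] W) (d : (V →ₗ[ZMod p] V →ₗ[ZMod p] W) × (V → W)) (x : V) :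
    (tr g h d).2 x = h (d.2 (g.symm x)) := rfl

theorem tr_dat (g : V ≃ₗ[ZMod p] V) (h : W ≃ₗ[ZMod p] W) {d : (V →ₗ[ZMod p] V →ₗ[ZMod p] W) × (V → W)}
    (hd : IsDat d) : IsDat (tr g h d) := by
  refine ⟨fun x => ?_, fun x y => ?_⟩
  · rw [tr_fst, hd.alt, map_zero]
  · rw [tr_snd, tr_snd, tr_snd, tr_fst, map_add, hd.pow, map_add, map_add, map_nsmul]

theorem tr_inj {d d' : (V →ₗ[ZMod p] V →ₗ[ZMod p] W) × (V → W)} {g g' : V ≃ₗ[ZMod p] V} {h h' : W ≃ₗ[ZMod p] W}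
    (e : tr g h d = tr g' h' d') :
    (∀ x y, d'.1 ((g.trans g'.symm) x) ((g.trans g'.symm) y) = (h.trans h'.symm) (d.1 x y)) ∧
      ∀ x, d'.2 ((g.trans g'.symm) x) = (h.trans h'.symm) (d.2 x) := by
  refine ⟨fun x y => ?_, fun x => ?_⟩
  · have e1 : (tr g h d).1 (g x) (g y) = (tr g' h' d').1 (g x) (g y) := by rw [e]
    rw [tr_fst, tr_fst, LinearEquiv.symm_apply_apply, LinearEquiv.symm_apply_apply] at e1
    rw [LinearEquiv.trans_apply, LinearEquiv.trans_apply, LinearEquiv.trans_apply, e1, LinearEquiv.symm_apply_apply]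
  · have e1 : (tr g h d).2 (g x) = (tr g' h' d').2 (g x) := by rw [e]
    rw [tr_snd, tr_snd, LinearEquiv.symm_apply_apply] at e1
    rw [LinearEquiv.trans_apply, LinearEquiv.trans_apply, e1, LinearEquiv.symm_apply_apply]

/-- the number of data -/
theorem card_dat {m : ℕ} (b : Basis (Fin m) (ZMod p) V) [Finite W] :
    Finite {d : (V →ₗ[ZMod p] V →ₗ[ZMod p] W) × (V → W) // IsDat d} ∧
    Nat.card {d : (V →ₗ[ZMod p] V →ₗ[ZMod p] W) × (V → W) // IsDat d} ≤ Nat.card W ^ (m * (m + 1) / 2) := by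
  have hFa : Finite (Alt p V W) := finite_alt b
  let f : {d : (V →ₗ[ZMod p] V →ₗ[ZMod p] W) × (V → W) // IsDat d} → Alt p V W × (Fin m → W) :=
    fun d => (⟨d.1.1, d.2.alt⟩, fun i => d.1.2 (b i))
  have hf : Function.Injective f := by
    rintro ⟨⟨B, π⟩, hd⟩ ⟨⟨B', π'⟩, hd'⟩ h
    have h1 : B = B' := congrArg Subtype.val (congrArg Prod.fst h)
    have h2 : ∀ i, π (b i) = π' (b i) := fun i => congrFun (congrArg Prod.snd h) i
    subst h1
    have h3 : π = π' := by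
      funext x
      rw [π_formula b B π hd.alt hd.pow x, π_formula b B π' hd'.alt hd'.pow x]
      congr 1
      exact Finset.sum_congr rfl fun i _ => by rw [h2]
    subst h3
    rfl
  refine ⟨Finite.of_injective f hf, (Nat.card_le_card_of_injective f hf).trans (le_of_eq ?_)⟩
  rw [Nat.card_prod, card_alt b, Nat.card_fun, Nat.card_eq_fintype_card (α := Fin m), Fintype.card_fin, ← pow_add]
  congr 1
  have h1 : 2 ∣ m * (m - 1) := even_iff_two_dvd.1 (Nat.even_mul_pred_self m)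
  have h2 : m * (m + 1) = m * (m - 1) + m * 2 := by
    cases m with
    | zero => rfl
    | succ j => simp only [Nat.add_sub_cancel]; ring
  rw [h2, Nat.add_mul_div_right _ _ (by norm_num)]

/-- free action: the upper bound for the number of classes -/
theorem card_quot {m : ℕ} (b : Basis (Fin m) (ZMod p) V) [Finite V] [Finite W] :
    Finite (RD p V W) ∧ Nat.card (Quotient (sd p V W)) * (Nat.card (V ≃ₗ[ZMod p] V) * Nat.card (W ≃ₗ[ZMod p] W)) ≤
      Nat.card W ^ (m * (m + 1) / 2) := by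
  obtain ⟨hF, hc⟩ := card_dat (W := W) b
  have hFR : Finite (RD p V W) :=
    Finite.of_injective (fun d : RD p V W => (⟨d.1, d.2.toIsDat⟩ :
      {d : (V →ₗ[ZMod p] V →ₗ[ZMod p] W) × (V → W) // IsDat d})) (by
      intro a a' h
      have h1 := congrArg Subtype.val h
      exact Subtype.ext h1)
  refine ⟨hFR, ?_⟩
  refine le_trans ?_ hc
  rw [← Nat.card_prod, ← Nat.card_prod]
  refine Nat.card_le_card_of_injective (fun t : Quotient (sd p V W) × ((V ≃ₗ[ZMod p] V) × (W ≃ₗ[ZMod p] W)) =>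
    (⟨tr t.2.1 t.2.2 t.1.out.1, tr_dat _ _ t.1.out.2.toIsDat⟩ :
      {d : (V →ₗ[ZMod p] V →ₗ[ZMod p] W) × (V → W) // IsDat d})) ?_
  rintro ⟨q, g, h⟩ ⟨q', g', h'⟩ e
  have e1 := congrArg Subtype.val e
  obtain ⟨h1, h2⟩ := tr_inj e1
  have hq : q = q' := by
    have h3 : (sd p V W).r q.out q'.out := ⟨g.trans g'.symm, h.trans h'.symm, h1, h2⟩
    have h4 : (⟦q.out⟧ : Quotient (sd p V W)) = ⟦q'.out⟧ := Quotient.sound h3
    rwa [Quotient.out_eq, Quotient.out_eq] at h4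
  subst hq
  have hrd := q.out.2
  have h3 := hrd.rig (g.trans g'.symm) (h.trans h'.symm) h1 h2
  have hg : g = g' := by
    refine LinearEquiv.ext fun x => ?_
    have h4 := h3 x
    rw [LinearEquiv.trans_apply, LinearEquiv.symm_apply_eq] at h4
    exact h4
  have hh : h = h' := by
    refine LinearEquiv.ext fun w => ?_
    have := hrd.nv
    obtain ⟨x, hx⟩ := exists_ne (0 : V)
    obtain ⟨y, rfl⟩ := hrd.onto x hx w
    have h4 := h1 x y
    rw [h3, h3, LinearEquiv.trans_apply, LinearEquiv.eq_symm_apply] at h4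
    exact h4.symm
  rw [hg, hh]

end data

end Pool.Agent.Helper79.CMC
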