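import Pool.Agent.Helper79.CMC.Rig
import Pool.Agent.Helper79.CMC.Param
import Pool.Agent.Helper79.CMC.Defs

/-!
# Counting Camina and Miller groups: the size of the family and of its isomorphism classes
-/

set_option autoImplicit false

namespace Pool.Agent.Helper79.CMC

open Pool.Agent.Helper3.CM Module

variable {p : ℕ} [Fact p.Prime] {K : Type} [Field K] [Finite K] [Algebra (ZMod p) K] {n : ℕ} (c : Fin n → K)

/-! ### the image of `δ` -/

/-- `δ` as a linear map -/
noncomputable def delL : (K →ₗ[ZMod p] K) →ₗ[ZMod p] (K → K → (Fin n → ZMod p)) where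
  toFun μ := fun x x' => del c μ x x'
  map_add' := by
    intro μ ν
    funext x x'
    simp only [Pi.add_apply]
    unfold del
    rw [← map_add]
    congr 1
    simp only [LinearMap.add_apply]
    ring
  map_smul' := by
    intro s μ
    funext x x'
    simp only [RingHom.id_apply, Pi.smul_apply]
    unfold del
    rw [← map_smul]
    congr 1
    simp only [LinearMap.smul_apply, smul_sub, mul_smul_comm]

omit [Finite K] in
theorem delL_apply (μ : K →ₗ[ZMod p] K) (x x' : K) : delL c μ x x' = del c μ x x' := rfl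

/-- `X` is in the image of `δ` -/
def InIm (X : K →ₗ[ZMod p] K →ₗ[ZMod p] (Fin n → ZMod p)) : Prop :=
  ∃ μ : K →ₗ[ZMod p] K, ∀ x x', X x x' = del c μ x x'

theorem card_hom (V W : Type) [AddCommGroup V] [Module (ZMod p) V] [Finite V] [AddCommGroup W] [Module (ZMod p) W]
    [Finite W] : Nat.card (V →ₗ[ZMod p] W) = p ^ (finrank (ZMod p) V * finrank (ZMod p) W) := by
  have h1 : Module.Finite (ZMod p) V := Module.Finite.of_finite
  have h2 : Module.Finite (ZMod p) W := Module.Finite.of_finite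
  have h3 := Module.natCard_eq_pow_finrank (K := ZMod p) (V := V →ₗ[ZMod p] W)
  rw [Nat.card_zmod, Module.finrank_linearMap (ZMod p) (ZMod p) V W] at h3
  exact h3

theorem card_range : Nat.card (LinearMap.range (delL (p := p) c)) * p ^ finrank (ZMod p) K ≤
    p ^ (finrank (ZMod p) K * finrank (ZMod p) K) := by
  have hfin : Module.Finite (ZMod p) K := Module.Finite.of_finite
  have hF : Finite (K →ₗ[ZMod p] K) := Module.finite_of_finite (ZMod p)
  have h1 : Nat.card (K →ₗ[ZMod p] K) = p ^ (finrank (ZMod p) K * finrank (ZMod p) K) := card_hom K K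
  have h3 : Nat.card (LinearMap.ker (delL (p := p) c)) * Nat.card (LinearMap.range (delL (p := p) c)) =
      Nat.card (K →ₗ[ZMod p] K) := by
    rw [Submodule.card_eq_card_quotient_mul_card (LinearMap.ker (delL (p := p) c)),
      Nat.card_congr (delL (p := p) c).quotKerEquivRange.toEquiv, mul_comm]
  have h4 : p ^ finrank (ZMod p) K ≤ Nat.card (LinearMap.ker (delL (p := p) c)) := by
    have h5 := Module.natCard_eq_pow_finrank (K := ZMod p) (V := K)
    rw [Nat.card_zmod] at h5
    rw [← h5]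
    refine Nat.card_le_card_of_injective (fun s : K => (⟨LinearMap.mulLeft (ZMod p) s, ?_⟩ :
      LinearMap.ker (delL (p := p) c))) ?_
    · rw [LinearMap.mem_ker]
      funext x x'
      rw [delL_apply]
      unfold del
      rw [LinearMap.mulLeft_apply, LinearMap.mulLeft_apply, show x * (s * x') - x' * (s * x) = 0 from by ring,
        map_zero]
      rfl
    · intro s t hst
      have h6 := LinearMap.congr_fun (congrArg Subtype.val hst) 1
      simpa using h6
  rw [← h1, ← h3, mul_comm (Nat.card (LinearMap.ker (delL (p := p) c)))]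
  exact Nat.mul_le_mul_left _ h4

theorem card_bad : Nat.card {X : Alt p K (Fin n → ZMod p) // InIm c X.1} * p ^ finrank (ZMod p) K ≤
    p ^ (finrank (ZMod p) K * finrank (ZMod p) K) := by
  have hfin : Module.Finite (ZMod p) K := Module.Finite.of_finite
  have hF : Finite (K →ₗ[ZMod p] K) := Module.finite_of_finite (ZMod p)
  have hF2 : Finite (LinearMap.range (delL (p := p) c)) := inferInstance
  refine (Nat.mul_le_mul_right _ ?_).trans (card_range c)
  refine Nat.card_le_card_of_injective (fun X : {X : Alt p K (Fin n → ZMod p) // InIm c X.1} =>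
    (⟨fun x x' => X.1.1 x x', ?_⟩ : LinearMap.range (delL (p := p) c))) ?_
  · obtain ⟨μ, hμ⟩ := X.2
    refine ⟨μ, ?_⟩
    funext x x'
    rw [delL_apply, hμ]
  · intro X Y h
    have h1 := congrArg Subtype.val h
    apply Subtype.ext
    apply Subtype.ext
    refine LinearMap.ext fun x => LinearMap.ext fun x' => ?_
    exact congrFun (congrFun h1 x) x'

/-! ### the power map of a member -/

section fam

variable {k : ℕ} (b : Basis (Fin k) (ZMod p) K)

/-- the quadratic part -/
noncomputable def SX (X : K →ₗ[ZMod p] K →ₗ[ZMod p] (Fin n → ZMod p)) (L : K →ₗ[ZMod p] (Fin n → ZMod p)) (x : K) :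
    Fin n → ZMod p := (p.choose 2) • half b X x x + L x

omit [Finite K] in
theorem SX_add (X : K →ₗ[ZMod p] K →ₗ[ZMod p] (Fin n → ZMod p)) (hX : ∀ x, X x x = 0)
    (L : K →ₗ[ZMod p] (Fin n → ZMod p)) (x x' : K) :
    SX b X L (x + x') = SX b X L x + SX b X L x' + (p.choose 2) • X x' x := by
  unfold SX
  rw [half_add_left, half_add_right, half_add_right, map_add, ← half_sub b X hX x' x]
  have h := choose_two_smul (p := p) (half b X x x')
  simp only [smul_add, smul_sub] at h ⊢
  have e : p.choose 2 • half b X x x' = -(p.choose 2 • half b X x x') := eq_neg_of_add_eq_zero_left h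
  rw [sub_eq_add_neg, ← e]
  abel

omit [Finite K] in
theorem SX_zero (X : K →ₗ[ZMod p] K →ₗ[ZMod p] (Fin n → ZMod p)) (L : K →ₗ[ZMod p] (Fin n → ZMod p)) :
    SX b X L 0 = 0 := by
  unfold SX
  have e1 : half b X 0 (0 : K) = 0 := by
    have := half_add_left b X 0 0 (0 : K)
    rw [add_zero] at this
    exact left_eq_add.mp this
  rw [e1, map_zero, smul_zero, add_zero]

/-- the index set of the family -/
abbrev Fam (p : ℕ) [Fact p.Prime] {K : Type} [Field K] [Algebra (ZMod p) K] {n : ℕ} (c : Fin n → K) : Type :=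
  {X : Alt p K (Fin n → ZMod p) // ¬ InIm c X.1} × (K →ₗ[ZMod p] (Fin n → ZMod p))

/-- the commutator map of a member -/
noncomputable abbrev Bq (q : Fam p c) : (K × K) →ₗ[ZMod p] (K × K) →ₗ[ZMod p] (Fin n → ZMod p) := BX c q.1.1.1

/-- the power map of a member -/
noncomputable abbrev πq (θ : K) (q : Fam p c) : K × K → (Fin n → ZMod p) := pX c (SX b q.1.1.1 q.2) (Qk c θ)

/-- the group of a member -/
abbrev Gq (θ : K) {m : ℕ} (bV : Basis (Fin m) (ZMod p) (K × K)) (q : Fam p c) : Type :=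
  Ext (coc bV (Bq c q) (πq c b θ q))

/-- its realisation -/
noncomputable def Rq (θ : K) {m : ℕ} (bV : Basis (Fin m) (ZMod p) (K × K)) (q : Fam p c) :
    Real (Gq c b θ bV q) (Bq c q) (πq c b θ q) :=
  realize bV (Bq c q) (πq c b θ q) (BX_self c _ q.1.1.2)
    (fun v w => pX_add c _ _ (SX_add b _ q.1.1.2 _) _ v w)

theorem camMil [CharP K p] (hc : LinearIndependent (ZMod p) c) (hn : 3 ≤ n) (i₀ i₁ : Fin n) {θ : K} (h0 : c i₀ = 1)
    (h1 : c i₁ = θ) (hθ : Algebra.adjoin (ZMod p) {θ} = ⊤) {m : ℕ} (bV : Basis (Fin m) (ZMod p) (K × K))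
    (q : Fam p c) : CamMil p (2 * finrank (ZMod p) K) n (Gq c b θ bV q) := by
  have hs : ∀ v : K × K, v ≠ 0 → Function.Surjective (Bq c q v) := BX_surj c hc q.1.1.1
  have hR : Rigid (Bq c q) (πq c b θ q) := by
    apply rigidX c hc hn i₀ i₁ h0 h1 hθ q.1.1.1 _ _ (SX_zero b _ _)
    intro μ hμ
    exact q.1.2 ⟨μ, hμ⟩
  have hne : Nonempty (Fin n) := ⟨i₀⟩
  let R := Rq c b θ bV q
  refine ⟨inferInstance, R.isPGroup, R.isCamina hs, (miller_iff_rigid R hs).2 hR, ?_, ?_⟩
  · rw [R.index_V hs]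
    have h2 := Module.natCard_eq_pow_finrank (K := ZMod p) (V := K)
    rw [Nat.card_zmod] at h2
    rw [Nat.card_prod, h2]
    ring
  · rw [R.card_W hs, Nat.card_eq_fintype_card, Fintype.card_fun, ZMod.card, Fintype.card_fin]

/-- the members isomorphic to a given one -/
theorem card_class [CharP K p] (hc : LinearIndependent (ZMod p) c) (hn : 3 ≤ n) (i₀ i₁ : Fin n) {θ : K} (h0 : c i₀ = 1)
    (h1 : c i₁ = θ) (hθ : Algebra.adjoin (ZMod p) {θ} = ⊤) {m : ℕ} (bV : Basis (Fin m) (ZMod p) (K × K))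
    (q : Fam p c) : Nat.card {q' : Fam p c // Nonempty (Gq c b θ bV q ≃* Gq c b θ bV q')} ≤
      (p - 1) * p ^ (finrank (ZMod p) K * finrank (ZMod p) K) := by
  have hp1 := (Fact.out : p.Prime).one_lt
  have hfin : Module.Finite (ZMod p) K := Module.Finite.of_finite
  have hF : Finite (K →ₗ[ZMod p] K) := Module.finite_of_finite (ZMod p)
  have hE : Nat.card (K →ₗ[ZMod p] K) = p ^ (finrank (ZMod p) K * finrank (ZMod p) K) := card_hom K K
  have hU : Nat.card ((ZMod p)ˣ) = p - 1 := by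
    rw [Nat.card_eq_fintype_card, ZMod.card_units]
  have key : ∀ q' : {q' : Fam p c // Nonempty (Gq c b θ bV q ≃* Gq c b θ bV q')}, ∃ (r : (ZMod p)ˣ) (γ : K →ₗ[ZMod p] K),
      (∀ x x', q'.1.1.1.1 x x' = (r : ZMod p) • q.1.1.1 x x' - del c γ x x') ∧
      ∀ x, SX b q'.1.1.1.1 q'.1.2 x = (r : ZMod p) • SX b q.1.1.1 q.2 x - (p.choose 2) • ps c (x * γ x) -
        Qk c θ (γ x) := by
    rintro ⟨q', hq'⟩
    obtain ⟨g, h, hB, hπ⟩ := (iso_iff (Rq c b θ bV q) (Rq c b θ bV q') (BX_surj c hc q.1.1.1)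
      (BX_surj c hc q'.1.1.1)).1 hq'
    obtain ⟨r, γ, hr, hg, hh⟩ := main_map c hc hn i₀ i₁ h0 h1 hθ q.1.1.1 q'.1.1.1 (fun μ hμ => q'.1.2 ⟨μ, hμ⟩)
      (SX b q.1.1.1 q.2) (SX b q'.1.1.1 q'.2) (SX_zero b _ _) (SX_zero b _ _) g h hB hπ
    obtain ⟨h2, h3⟩ := main_rel c q.1.1.1 q'.1.1.1 _ _ θ g h hB hπ r γ hg hh
    exact ⟨Units.mk0 r hr, γ, h2, h3⟩
  choose r γ hX hS using key
  rw [← hU, ← hE, ← Nat.card_prod]
  refine Nat.card_le_card_of_injective (fun q' => (r q', γ q')) ?_
  intro q₁ q₂ h12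
  rw [Prod.mk.injEq] at h12
  obtain ⟨hr, hγ⟩ := h12
  have e1 : q₁.1.1.1.1 = q₂.1.1.1.1 := by
    refine LinearMap.ext fun x => LinearMap.ext fun x' => ?_
    rw [hX q₁, hX q₂, hr, hγ]
  have e2 : q₁.1.2 = q₂.1.2 := by
    refine LinearMap.ext fun x => ?_
    have e3 : SX b q₁.1.1.1.1 q₁.1.2 x = SX b q₂.1.1.1.1 q₂.1.2 x := by
      rw [hS q₁, hS q₂, hr, hγ]
    unfold SX at e3
    rw [e1] at e3
    exact add_left_cancel e3
  apply Subtype.ext
  exact Prod.ext (Subtype.ext (Subtype.ext e1)) e2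

end fam

end Pool.Agent.Helper79.CMC
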