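import Pool.Agent.Helper79.CMC.Fam

/-!
# Counting Camina and Miller groups: the lower bound
-/

set_option autoImplicit false

namespace Pool.Agent.Helper79.CMC

open Pool.Agent.Helper3.CM Module

variable {p : ℕ} [Fact p.Prime]

/-- counting by fibres -/
theorem card_fibre {A : Type*} [Finite A] {N B : ℕ} (f : A → Fin N) (h : ∀ i, Nat.card {a // f a = i} ≤ B) :
    Nat.card A ≤ N * B := by
  rw [← Nat.card_congr (Equiv.sigmaFiberEquiv f), Nat.card_sigma]
  refine (Finset.sum_le_sum fun i _ => h i).trans (le_of_eq ?_)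
  rw [Finset.sum_const, Finset.card_univ, Fintype.card_fin, smul_eq_mul]

/-- the arithmetic -/
theorem arith {n k N good bad : ℕ} (hn : 3 ≤ n) (hgb : good + bad = (p ^ n) ^ (k * (k - 1) / 2))
    (hbad : bad * p ^ k ≤ p ^ (k * k)) (h : good * p ^ (k * n) ≤ N * ((p - 1) * p ^ (k * k))) :
    p ^ ((n - 1) * k) * (p ^ ((n - 2) * (k * (k - 1) / 2)) - 1) ≤ (p - 1) * N := by
  have hp0 := (Fact.out : p.Prime).pos
  set t := k * (k - 1) / 2 with ht
  have h2t : k * k = 2 * t + k := by
    have h1 : 2 ∣ k * (k - 1) := even_iff_two_dvd.1 (Nat.even_mul_pred_self k)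
    have h2 : 2 * t = k * (k - 1) := by rw [ht, Nat.mul_div_cancel' h1]
    rw [h2]
    cases k with
    | zero => rfl
    | succ j => simp only [Nat.add_sub_cancel]; ring
  obtain ⟨n', rfl⟩ : ∃ n', n = n' + 2 := ⟨n - 2, by omega⟩
  have hn1 : n' + 2 - 1 = n' + 1 := by omega
  have hn2 : n' + 2 - 2 = n' := by omega
  rw [hn1, hn2]
  obtain ⟨u, hu⟩ : ∃ u, p ^ (n' * t) = u + 1 := ⟨p ^ (n' * t) - 1, by
    have := Nat.pow_pos (n := n' * t) hp0
    omega⟩
  rw [hu, Nat.add_sub_cancel]
  have hbad' : bad ≤ p ^ (2 * t) := by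
    rw [h2t, pow_add] at hbad
    exact Nat.le_of_mul_le_mul_right hbad (Nat.pow_pos hp0)
  have hgood : p ^ (2 * t) * u ≤ good := by
    have e : (p ^ (n' + 2)) ^ t = p ^ (2 * t) * u + p ^ (2 * t) := by
      rw [← pow_mul, show (n' + 2) * t = 2 * t + n' * t from by ring, pow_add, hu]
      ring
    rw [e] at hgb
    omega
  have h3 : p ^ (2 * t) * u * p ^ (k * (n' + 2)) ≤ N * ((p - 1) * p ^ (k * k)) :=
    (Nat.mul_le_mul_right _ hgood).trans h
  have e1 : p ^ (2 * t) * u * p ^ (k * (n' + 2)) = (p ^ ((n' + 1) * k) * u) * p ^ (2 * t + k) := by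
    rw [show k * (n' + 2) = (n' + 1) * k + k from by ring, pow_add, pow_add]
    ring
  have e2 : N * ((p - 1) * p ^ (k * k)) = ((p - 1) * N) * p ^ (2 * t + k) := by
    rw [h2t]
    ring
  rw [e1, e2] at h3
  exact Nat.le_of_mul_le_mul_right h3 (Nat.pow_pos hp0)

/-- The lower bound. -/
theorem lower_bound {n k N : ℕ} (hn : 3 ≤ n) (hk : n ≤ k) (hN : IsCount p (2 * k) n N) :
    p ^ ((n - 1) * k) * (p ^ ((n - 2) * (k * (k - 1) / 2)) - 1) ≤ (p - 1) * N := by
  have hp1 := (Fact.out : p.Prime).one_lt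
  let K := GaloisField p k
  have hfin : finrank (ZMod p) K = k := GaloisField.finrank p (by omega)
  have hF : Finite K := by
    apply Nat.finite_of_card_ne_zero
    rw [GaloisField.card p k (by omega)]
    exact pow_ne_zero _ (by omega)
  have hMF : Module.Finite (ZMod p) K := Module.Finite.of_finite
  obtain ⟨θ, hθ'⟩ := Field.exists_primitive_element (ZMod p) K
  have hdeg : (minpoly (ZMod p) θ).natDegree = finrank (ZMod p) K :=
    (Field.primitive_element_iff_minpoly_natDegree_eq (ZMod p) θ).1 hθ'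
  have hθ : Algebra.adjoin (ZMod p) {θ} = ⊤ := by
    rw [← IntermediateField.adjoin_simple_toSubalgebra_of_isAlgebraic (Algebra.IsAlgebraic.isAlgebraic θ), hθ',
      IntermediateField.top_toSubalgebra]
  let c : Fin n → K := fun i => θ ^ (i : ℕ)
  have hc : LinearIndependent (ZMod p) c := by
    have h1 := (linearIndependent_pow (K := ZMod p) θ).comp (Fin.castLE (by rw [hdeg, hfin]; exact hk) : Fin n → _)
      (Fin.castLE_injective _)
    exact h1
  have h0 : c ⟨0, by omega⟩ = 1 := pow_zero θ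
  have h1 : c ⟨1, by omega⟩ = θ := pow_one θ
  let b : Basis (Fin k) (ZMod p) K := Module.finBasisOfFinrankEq (ZMod p) K hfin
  let bV := Module.finBasis (ZMod p) (K × K)
  have hFh : Finite (K →ₗ[ZMod p] (Fin n → ZMod p)) := Module.finite_of_finite (ZMod p)
  have hFa : Finite (Alt p K (Fin n → ZMod p)) := finite_alt b
  have hFam : Finite (Fam p c) := inferInstance
  obtain ⟨G, iG, hG, huniq, hex⟩ := hN
  have hcm := camMil c b hc hn ⟨0, by omega⟩ ⟨1, by omega⟩ h0 h1 hθ bV
  rw [hfin] at hcm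
  have hf : ∀ q : Fam p c, ∃ i, Nonempty (Gq c b θ bV q ≃* G i) := fun q => hex _ (hcm q)
  choose f hf using hf
  have hfib : ∀ i, Nat.card {q // f q = i} ≤ (p - 1) * p ^ (k * k) := by
    intro i
    by_cases hem : Nonempty {q // f q = i}
    · obtain ⟨⟨q, hq⟩⟩ := hem
      have h2 := card_class c b hc hn ⟨0, by omega⟩ ⟨1, by omega⟩ h0 h1 hθ bV q
      rw [hfin] at h2
      refine le_trans ?_ h2
      refine Nat.card_le_card_of_injective (fun q' : {q // f q = i} =>
        (⟨q'.1, ?_⟩ : {q' : Fam p c // Nonempty (Gq c b θ bV q ≃* Gq c b θ bV q')})) ?_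
      · obtain ⟨e1⟩ := hf q
        obtain ⟨e2⟩ := hf q'.1
        have e3 : f q = f q'.1 := hq.trans q'.2.symm
        rw [← e3] at e2
        exact ⟨e1.trans e2.symm⟩
      · intro a a' h
        have h3 := congrArg Subtype.val h
        exact Subtype.ext h3
    · rw [not_nonempty_iff] at hem
      rw [Nat.card_of_isEmpty]
      exact Nat.zero_le _
  have hfam := card_fibre f hfib
  have hprod : Nat.card (Fam p c) = Nat.card {X : Alt p K (Fin n → ZMod p) // ¬ InIm c X.1} * p ^ (k * n) := by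
    rw [Nat.card_prod]
    have h2 := card_hom (p := p) K (Fin n → ZMod p)
    rw [hfin, Module.finrank_fintype_fun_eq_card, Fintype.card_fin] at h2
    rw [h2]
  rw [hprod] at hfam
  have hsum : Nat.card {X : Alt p K (Fin n → ZMod p) // ¬ InIm c X.1} +
      Nat.card {X : Alt p K (Fin n → ZMod p) // InIm c X.1} = (p ^ n) ^ (k * (k - 1) / 2) := by
    classical
    have h2 := card_alt (W := Fin n → ZMod p) b
    have h3 : Nat.card (Fin n → ZMod p) = p ^ n := by
      rw [Nat.card_eq_fintype_card, Fintype.card_fun, ZMod.card, Fintype.card_fin]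
    rw [h3] at h2
    rw [← h2, add_comm, ← Nat.card_sum]
    exact Nat.card_congr (Equiv.sumCompl fun X : Alt p K (Fin n → ZMod p) => InIm c X.1)
  have hbad := card_bad (p := p) c
  rw [hfin] at hbad
  exact arith hn hsum hbad hfam

end Pool.Agent.Helper79.CMC
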