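import Pool.Agent.Helper79.CMC.Count
import Pool.Agent.Helper79.CMC.Lower
import Pool.Agent.Helper3.CM.T11

/-!
# Counting Camina and Miller groups: the theorem
-/

set_option autoImplicit false

namespace Pool.Agent.Helper79.CMC

open Pool.Agent.Helper3.CM Module

variable {p : ℕ} [Fact p.Prime]

theorem card_vec (m : ℕ) : Nat.card (Fin m → ZMod p) = p ^ m := by
  rw [Nat.card_eq_fintype_card, Fintype.card_fun, ZMod.card, Fintype.card_fin]

theorem card_gl (m : ℕ) : Nat.card ((Fin m → ZMod p) ≃ₗ[ZMod p] (Fin m → ZMod p)) = ∏ i : Fin m, (p ^ m - p ^ (i : ℕ)) := by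
  have h1 := Matrix.card_GL_field (𝔽 := ZMod p) m
  rw [ZMod.card] at h1
  rw [← h1]
  exact Nat.card_congr ((Matrix.GeneralLinearGroup.toLin (n := Fin m) (R := ZMod p)).trans
    (LinearMap.GeneralLinearGroup.generalLinearEquiv (ZMod p) (Fin m → ZMod p))).symm.toEquiv

/-- a group with rigid data -/
theorem camMil_of_real {m n : ℕ} {G : Type} [Group G] [Finite G]
    {d : ((Fin m → ZMod p) →ₗ[ZMod p] (Fin m → ZMod p) →ₗ[ZMod p] (Fin n → ZMod p)) × ((Fin m → ZMod p) → (Fin n → ZMod p))}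
    (hd : IsRD d) (R : Real G d.1 d.2) : CamMil p m n G := by
  have := hd.nv
  have := hd.nw
  refine ⟨inferInstance, R.isPGroup, R.isCamina hd.onto, (miller_iff_rigid R hd.onto).2 hd.rig, ?_, ?_⟩
  · rw [R.index_V hd.onto, card_vec]
  · rw [R.card_W hd.onto, card_vec]

/-- every group has rigid data -/
theorem real_of_camMil {m n : ℕ} {G : Type} [Group G] (hG : CamMil p m n G) :
    ∃ d : RD p (Fin m → ZMod p) (Fin n → ZMod p), Nonempty (Real G d.1.1 d.1.2) := by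
  have hp1 := (Fact.out : p.Prime).one_lt
  obtain ⟨hF, hP, hC, hM, hi, hc⟩ := hG
  obtain ⟨m', n', B, π, hm', hn', hs, ⟨R⟩⟩ := exists_real hP hC hM
  have : Nonempty (Fin m') := ⟨⟨0, hm'⟩⟩
  have : Nonempty (Fin n') := ⟨⟨0, hn'⟩⟩
  rw [R.index_V hs, card_vec] at hi
  rw [R.card_W hs, card_vec] at hc
  have e1 : m' = m := Nat.pow_right_injective hp1 hi
  have e2 : n' = n := Nat.pow_right_injective hp1 hc
  subst e1
  subst e2
  exact ⟨⟨(B, π), ⟨⟨R.B_self, R.π_add⟩, inferInstance, inferInstance, hs, (miller_iff_rigid R hs).1 hM⟩⟩, ⟨R⟩⟩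

/-- the number of classes is finite, and bounded -/
theorem exists_count (m n : ℕ) : ∃ N : ℕ, IsCount p m n N ∧
    N * ((∏ i : Fin m, (p ^ m - p ^ (i : ℕ))) * ∏ i : Fin n, (p ^ n - p ^ (i : ℕ))) ≤ p ^ (n * (m * (m + 1) / 2)) := by
  obtain ⟨hF, hc⟩ := card_quot (W := Fin n → ZMod p) (Pi.basisFun (ZMod p) (Fin m))
  have hFQ : Finite (Quotient (sd p (Fin m → ZMod p) (Fin n → ZMod p))) := Quotient.finite _
  refine ⟨Nat.card (Quotient (sd p (Fin m → ZMod p) (Fin n → ZMod p))), ?_, ?_⟩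
  · let e := Finite.equivFin (Quotient (sd p (Fin m → ZMod p) (Fin n → ZMod p)))
    let b := Pi.basisFun (ZMod p) (Fin m)
    let D : Fin (Nat.card (Quotient (sd p (Fin m → ZMod p) (Fin n → ZMod p)))) →
      RD p (Fin m → ZMod p) (Fin n → ZMod p) := fun i => (e.symm i).out
    let R : ∀ i, Real (Ext (coc b (D i).1.1 (D i).1.2)) (D i).1.1 (D i).1.2 := fun i =>
      realize b (D i).1.1 (D i).1.2 (D i).2.alt (D i).2.pow
    refine ⟨fun i => Ext (coc b (D i).1.1 (D i).1.2), fun i => inferInstance, fun i => camMil_of_real (D i).2 (R i),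
      ?_, ?_⟩
    · rintro i j hij
      have := (D i).2.nv
      obtain ⟨g, h, h1, h2⟩ := (iso_iff (R i) (R j) (D i).2.onto (D j).2.onto).1 hij
      have h3 : (sd p (Fin m → ZMod p) (Fin n → ZMod p)).r (D i) (D j) := ⟨g, h, h1, h2⟩
      have h4 : (⟦D i⟧ : Quotient (sd p (Fin m → ZMod p) (Fin n → ZMod p))) = ⟦D j⟧ := Quotient.sound h3
      rw [Quotient.out_eq, Quotient.out_eq] at h4
      exact e.symm.injective h4
    · intro H _ hH
      obtain ⟨d, ⟨RH⟩⟩ := real_of_camMil hH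
      refine ⟨e ⟦d⟧, ?_⟩
      have := d.2.nv
      have h5 : (⟦D (e ⟦d⟧)⟧ : Quotient (sd p (Fin m → ZMod p) (Fin n → ZMod p))) = ⟦d⟧ := by
        change (⟦(e.symm (e ⟦d⟧)).out⟧ : Quotient (sd p (Fin m → ZMod p) (Fin n → ZMod p))) = ⟦d⟧
        rw [Quotient.out_eq, Equiv.symm_apply_apply]
      have h3 : Eqv (D (e ⟦d⟧)).1 d.1 := Quotient.exact h5
      have h4 : Eqv d.1 (D (e ⟦d⟧)).1 := eqv_symm h3
      exact (iso_iff RH (R _) d.2.onto (D (e ⟦d⟧)).2.onto).2 h4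
  · rw [card_gl, card_gl, card_vec, ← pow_mul] at hc
    exact hc

theorem count_pos {m n N : ℕ} (hN : IsCount p m n N) :
    0 < N ↔ (Even m ∧ 6 ≤ m ∧ 2 ≤ n ∧ 2 * n ≤ m ∧ (p = 2 → n = 2 → 10 ≤ m)) := by
  rw [← spectrum m n]
  obtain ⟨G, iG, hG, -, hex⟩ := hN
  constructor
  · intro h
    obtain ⟨h1, h2⟩ := hG ⟨0, h⟩
    exact ⟨G ⟨0, h⟩, iG _, h1, h2⟩
  · rintro ⟨H, iH, hF, hH⟩
    obtain ⟨i, -⟩ := hex H ⟨hF, hH⟩
    exact i.pos

/-- The theorem. -/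
theorem main (m n : ℕ) : ∃ N : ℕ, IsCount p m n N ∧
    (0 < N ↔ (Even m ∧ 6 ≤ m ∧ 2 ≤ n ∧ 2 * n ≤ m ∧ (p = 2 → n = 2 → 10 ≤ m))) ∧
    N * ((∏ i : Fin m, (p ^ m - p ^ (i : ℕ))) * ∏ i : Fin n, (p ^ n - p ^ (i : ℕ))) ≤ p ^ (n * (m * (m + 1) / 2)) ∧
    ∀ k : ℕ, m = 2 * k → 3 ≤ n → n ≤ k →
      p ^ ((n - 1) * k) * (p ^ ((n - 2) * (k * (k - 1) / 2)) - 1) ≤ (p - 1) * N := by
  obtain ⟨N, hN, hu⟩ := exists_count (p := p) m n
  refine ⟨N, hN, count_pos hN, hu, ?_⟩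
  rintro k rfl hn hk
  exact lower_bound hn hk hN

end Pool.Agent.Helper79.CMC
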