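import Pool.Agent.Helper79.CMC.Alg

/-!
# Counting Camina and Miller groups: equivalences inside the family
-/

set_option autoImplicit false

namespace Pool.Agent.Helper79.CMC

open Pool.Agent.Helper3.CM Module

variable {p : ℕ} [Fact p.Prime] {K : Type*} [Field K] [Finite K] [Algebra (ZMod p) K] {n : ℕ} (c : Fin n → K)

/-- `κ z = θ z^(1/p) + z + z^p` -/
noncomputable def kap (θ : K) : K →ₗ[ZMod p] K :=
  (LinearMap.mulLeft (ZMod p) θ).comp (frob (p := p) (K := K)).symm.toLinearMap + LinearMap.id +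
    (frob (p := p) (K := K)).toLinearMap

theorem kap_apply (θ z : K) : kap (p := p) θ z = θ * (frob (p := p) (K := K)).symm z + z + z ^ p := by
  unfold kap
  rw [LinearMap.add_apply, LinearMap.add_apply, LinearMap.comp_apply, LinearMap.mulLeft_apply, LinearMap.id_apply,
    AlgEquiv.toLinearMap_apply, AlgEquiv.toLinearMap_apply, frob_apply]

/-- `Q y = (tr (κ (c i) y))_i` -/
noncomputable def Qk (θ : K) : K →ₗ[ZMod p] (Fin n → ZMod p) :=
  LinearMap.pi fun i => (Algebra.trace (ZMod p) K).comp (LinearMap.mulLeft (ZMod p) (kap (p := p) θ (c i)))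

theorem Qk_apply (θ y : K) (i : Fin n) :
    Qk (p := p) c θ y i = Algebra.trace (ZMod p) K (kap (p := p) θ (c i) * y) := rfl

theorem finv_pow (z : K) : ((frob (p := p) (K := K)).symm z) ^ p = z := by
  rw [← frob_apply, AlgEquiv.apply_symm_apply]

theorem finv_unique {z w : K} [CharP K p] (h : w ^ p = z) : (frob (p := p) (K := K)).symm z = w := by
  rw [AlgEquiv.symm_apply_eq, frob_apply, h]

theorem finv_map [CharP K p] (s : K ≃+* K) (z : K) :
    s ((frob (p := p) (K := K)).symm z) = (frob (p := p) (K := K)).symm (s z) := by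
  symm
  apply finv_unique
  rw [← map_pow, finv_pow]

theorem s_id' {θ : K} (hθ : Algebra.adjoin (ZMod p) {θ} = ⊤) (s : K ≃+* K) (h : s θ = θ) (z : K) : s z = z := by
  have hs : ∀ r, s (algebraMap (ZMod p) K r) = algebraMap (ZMod p) K r := by
    intro r
    exact RingHom.congr_fun (Subsingleton.elim ((s : K →+* K).comp (algebraMap (ZMod p) K))
      (algebraMap (ZMod p) K)) r
  let f : K →ₐ[ZMod p] K := (AlgEquiv.ofRingEquiv (f := s) hs).toAlgHom
  have h1 : f = AlgHom.id (ZMod p) K := by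
    apply AlgHom.ext_of_adjoin_eq_top hθ
    rintro _ rfl
    exact h
  exact AlgHom.congr_fun h1 z

theorem ps_surj (hc : LinearIndependent (ZMod p) c) (w : Fin n → ZMod p) : ∃ z : K, ps c z = w := by
  obtain ⟨z, hz⟩ := tr_surj c hc w
  refine ⟨z, ?_⟩
  ext i
  rw [ps_apply, hz]

/-- similitudes of the diagonal kind which preserve `Q` -/
theorem diag_case [CharP K p] (hc : LinearIndependent (ZMod p) c) (hn : 3 ≤ n) (i₀ i₁ : Fin n) {θ : K} (h0 : c i₀ = 1)
    (h1 : c i₁ = θ) (hθ : Algebra.adjoin (ZMod p) {θ} = ⊤) (α β : K ≃ₗ[ZMod p] K)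
    (h : (Fin n → ZMod p) ≃ₗ[ZMod p] (Fin n → ZMod p)) (hαβ : ∀ x y, ps c (α x * β y) = h (ps c (x * y)))
    (hQ : ∀ y, Qk c θ (β y) = h (Qk c θ y)) :
    ∃ r : ZMod p, r ≠ 0 ∧ (∀ x, α x = x) ∧ (∀ y, β y = r • y) ∧ ∀ w, h w = r • w := by
  let g : (K × K) ≃ₗ[ZMod p] (K × K) := LinearEquiv.prodCongr α β
  have hg : ∀ v, g v = (α v.1, β v.2) := fun v => rfl
  obtain ⟨s, c', u, v, -, hgx, hδ, hsc, hk, -⟩ := main_ident (p := p) c i₀ i₁ (by rw [h0]; exact one_ne_zero)
    (by rw [h0, h1, div_one]; exact hθ) (kap θ) 0 g h (by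
      intro x y
      have e1 : BB (p := p) c (g x) (g y) = ps c (α x.1 * β y.2) - ps c (α y.1 * β x.2) := by
        rw [← map_sub]
        ext i
        rw [BB_apply, ps_apply, hg, hg]
        congr 2
        simp only [om]
        ring
      have e2 : BB (p := p) c x y = ps c (x.1 * y.2) - ps c (y.1 * x.2) := by
        rw [← map_sub]
        ext i
        rw [BB_apply, ps_apply]
        congr 2
        simp only [om]
        ring
      rw [e1, e2, map_sub, hαβ, hαβ]) (by
      intro x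
      have e1 : ∀ x : K × K, (fun i => Algebra.trace (ZMod p) K (om (kap (p := p) θ (c i), (0 : K →ₗ[ZMod p] K) (c i)) x)) =
          Qk (p := p) c θ x.2 := by
        intro x
        funext i
        rw [Qk_apply]
        congr 1
        simp only [om, LinearMap.zero_apply]
        ring
      rw [e1, e1, hg]
      exact hQ x.2)
  have hu : u = (α 1, 0) := by
    have e := hgx (1, 0)
    rw [map_one, map_zero, one_smul, zero_smul, add_zero, hg, map_zero] at e
    exact e.symm
  have hv : v = (0, β 1) := by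
    have e := hgx (0, 1)
    rw [map_one, map_zero, one_smul, zero_smul, zero_add, hg, map_zero] at e
    exact e.symm
  set a : K := α 1 with ha
  set b : K := β 1 with hb
  have hC : om u v = a * b := by
    rw [hu, hv]
    simp only [om]
    ring
  rw [hC] at hδ hsc
  have hb0 : b ≠ 0 := right_ne_zero_of_mul hδ
  set C : K := a * b with hCdef
  let Fi : K → K := (frob (p := p) (K := K)).symm
  have hFi : ∀ z, Fi z = (frob (p := p) (K := K)).symm z := fun z => rfl
  have hFip : ∀ z, Fi z ^ p = z := fun z => finv_pow z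
  -- linear independence of the roots
  have hd : LinearIndependent (ZMod p) (fun i => Fi (c i)) := by
    have h2 := hc.map' (frob (p := p) (K := K)).symm.toLinearMap
      (LinearMap.ker_eq_bot.2 (frob (p := p) (K := K)).symm.injective)
    exact h2
  have hkey : ∀ i, kap (p := p) θ (c i) * b = s θ * Fi (c i * C) + c i * C + (c i * C) ^ p := by
    intro i
    have e := hk i
    rw [hv, LinearMap.zero_apply, zero_mul, sub_zero, kap_apply θ (c' i), map_add, map_add, map_mul, map_pow,
      finv_map, hsc] at e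
    exact e
  have P := lin_poly (fun i => Fi (c i)) hd 2 (by omega)
    (fun j => if j = 0 then θ * b - s θ * Fi C else if j = 1 then b - C else b - C ^ p) (by
      intro i
      have e := hkey i
      rw [kap_apply, ← hFi, show Fi (c i * C) = Fi (c i) * Fi C from map_mul _ _ _, mul_pow] at e
      simp only [Finset.sum_range_succ, Finset.sum_range_zero, zero_add]
      simp only [if_true, one_ne_zero, if_false, pow_zero, pow_one, two_ne_zero,
        OfNat.ofNat_ne_one]
      rw [show Fi (c i) ^ p ^ 2 = (Fi (c i) ^ p) ^ p from by rw [← pow_mul, pow_two], hFip]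
      linear_combination e)
  have p0 := P 0 (by omega)
  have p1 := P 1 (by omega)
  have p2 := P 2 (by omega)
  simp only [if_true, one_ne_zero, if_false, two_ne_zero, OfNat.ofNat_ne_one] at p0 p1 p2
  have hbC : b = C := sub_eq_zero.1 p1
  have hCp : C ^ p = C := by
    rw [← hbC] at p2 ⊢
    exact (sub_eq_zero.1 p2).symm
  have hFC : Fi C = C := finv_unique hCp
  have hsθ : s θ = θ := by
    rw [hFC, ← hbC] at p0
    have e : (θ - s θ) * b = 0 := by rw [sub_mul]; exact p0
    exact (sub_eq_zero.1 ((mul_eq_zero.1 e).resolve_right hb0)).symm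
  have hs := s_id' hθ s hsθ
  obtain ⟨r, hr⟩ := (fix_iff C).1 hCp
  have ha1 : a = 1 := by
    have e : a * b = 1 * b := by rw [one_mul, ← hCdef, hbC]
    exact mul_right_cancel₀ hb0 e
  have hα : ∀ x, α x = x := by
    intro x
    have e := hgx (x, 0)
    rw [hg, hu, hv, hs, hs, ha1] at e
    have e2 := congrArg Prod.fst e
    simpa using e2
  have hβ : ∀ y, β y = r • y := by
    intro y
    have e := hgx (0, y)
    rw [hg, hu, hv, hs, hs, hbC, ← hr] at e
    have e2 := congrArg Prod.snd e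
    rw [sd, mul_comm]
    simpa using e2
  refine ⟨r, ?_, hα, hβ, ?_⟩
  · intro h2
    apply hb0
    rw [hbC, ← hr, h2, map_zero]
  · intro w
    obtain ⟨z, rfl⟩ := ps_surj c hc w
    have e := hαβ z 1
    rw [hα, hβ, mul_one, mul_smul_comm, mul_one, map_smul] at e
    exact e.symm

/-- equivalences between two members of the family -/
theorem main_map [CharP K p] (hc : LinearIndependent (ZMod p) c) (hn : 3 ≤ n) (i₀ i₁ : Fin n) {θ : K} (h0 : c i₀ = 1)
    (h1 : c i₁ = θ) (hθ : Algebra.adjoin (ZMod p) {θ} = ⊤) (X X' : K →ₗ[ZMod p] K →ₗ[ZMod p] (Fin n → ZMod p))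
    (hX' : ∀ μ : K →ₗ[ZMod p] K, ¬ ∀ x x', X' x x' = del c μ x x') (S S' : K → (Fin n → ZMod p)) (hS : S 0 = 0)
    (hS' : S' 0 = 0) (g : (K × K) ≃ₗ[ZMod p] (K × K)) (h : (Fin n → ZMod p) ≃ₗ[ZMod p] (Fin n → ZMod p))
    (hB : ∀ v w, BX c X' (g v) (g w) = h (BX c X v w)) (hπ : ∀ v, pX c S' (Qk c θ) (g v) = h (pX c S (Qk c θ) v)) :
    ∃ (r : ZMod p) (γ : K →ₗ[ZMod p] K), r ≠ 0 ∧ (∀ v, g v = (v.1, γ v.1 + r • v.2)) ∧ ∀ w, h w = r • w := by
  set φ : K →ₗ[ZMod p] K := (LinearMap.fst (ZMod p) K K).comp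
    ((g : (K × K) →ₗ[ZMod p] (K × K)).comp (LinearMap.inr (ZMod p) K K)) with hφ
  set ψ : K →ₗ[ZMod p] K := (LinearMap.snd (ZMod p) K K).comp
    ((g : (K × K) →ₗ[ZMod p] (K × K)).comp (LinearMap.inr (ZMod p) K K)) with hψ
  have hg0 : ∀ y, g (0, y) = (φ y, ψ y) := fun y => rfl
  have hinj : ∀ y, φ y = 0 → ψ y = 0 → y = 0 := by
    intro y h2 h3
    have e : g (0, y) = g 0 := by rw [hg0, h2, h3, map_zero]; rfl
    exact congrArg Prod.snd (g.injective e)
  have hiso : ∀ y y', ps c (φ y * ψ y' - ψ y * φ y') + X' (φ y) (φ y') = 0 := by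
    intro y y'
    have e := hB (0, y) (0, y')
    have e0 : BX c X (0, y) (0, y') = 0 := by
      rw [BX_apply]
      simp
    rw [hg0, hg0, e0, map_zero, BX_apply] at e
    exact e
  have hadj : Algebra.adjoin (ZMod p) (Set.range c) = ⊤ := by
    rw [eq_top_iff, ← hθ]
    apply Algebra.adjoin_mono
    rintro _ rfl
    exact ⟨i₁, h1⟩
  have hφ0 : ∀ y, φ y = 0 := by
    rcases fst_cases c hadj i₀ h0 φ ψ hinj (by
      intro y y' hy'
      have e := hiso y y'
      rw [hy', mul_zero, sub_zero, map_zero, add_zero] at e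
      exact e) with h2 | h2
    · exact h2
    · exfalso
      have hb : Function.Bijective φ := ⟨(Finite.injective_iff_surjective.2 h2), h2⟩
      let φe : K ≃ₗ[ZMod p] K := LinearEquiv.ofBijective φ hb
      have hφe : ∀ x, φ (φe.symm x) = x := fun x => φe.apply_symm_apply x
      apply hX' (-(ψ.comp (φe.symm : K →ₗ[ZMod p] K)))
      intro x x'
      have e := hiso (φe.symm x) (φe.symm x')
      rw [hφe, hφe] at e
      rw [eq_neg_of_add_eq_zero_right e, ← map_neg]
      unfold del
      congr 1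
      simp only [LinearMap.neg_apply, LinearMap.comp_apply, LinearEquiv.coe_coe]
      ring
  set α : K →ₗ[ZMod p] K := (LinearMap.fst (ZMod p) K K).comp
    ((g : (K × K) →ₗ[ZMod p] (K × K)).comp (LinearMap.inl (ZMod p) K K)) with hα
  set γ : K →ₗ[ZMod p] K := (LinearMap.snd (ZMod p) K K).comp
    ((g : (K × K) →ₗ[ZMod p] (K × K)).comp (LinearMap.inl (ZMod p) K K)) with hγ
  have hg1 : ∀ x, g (x, 0) = (α x, γ x) := fun x => rfl
  have hgv : ∀ v, g v = (α v.1, γ v.1 + ψ v.2) := by
    intro v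
    have e : v = (v.1, 0) + (0, v.2) := by
      ext <;> simp
    conv_lhs => rw [e, map_add, hg0, hg1, hφ0]
    ext <;> simp
  have hψi : Function.Injective ψ := by
    rw [injective_iff_map_eq_zero]
    intro y hy
    exact hinj y (hφ0 y) hy
  have hαs : Function.Surjective α := by
    intro x
    obtain ⟨v, hv⟩ := g.surjective (x, 0)
    refine ⟨v.1, ?_⟩
    rw [hgv] at hv
    exact congrArg Prod.fst hv
  let αe : K ≃ₗ[ZMod p] K := LinearEquiv.ofBijective α ⟨Finite.injective_iff_surjective.2 hαs, hαs⟩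
  let βe : K ≃ₗ[ZMod p] K := LinearEquiv.ofBijective ψ ⟨hψi, Finite.injective_iff_surjective.1 hψi⟩
  obtain ⟨r, hr, h2, h3, h4⟩ := diag_case c hc hn i₀ i₁ h0 h1 hθ αe βe h (by
    intro x y
    have e := hB (x, 0) (0, y)
    rw [hg1, hg0, hφ0, BX_apply, BX_apply, map_zero, map_zero, add_zero, add_zero, mul_zero, mul_zero, sub_zero,
      sub_zero] at e
    exact e) (by
    intro y
    have e := hπ (0, y)
    rw [hg0, hφ0] at e
    unfold pX at e
    rw [hS, hS', zero_mul, zero_mul, map_zero, smul_zero, zero_add, zero_add, zero_add] at e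
    exact e)
  refine ⟨r, γ, hr, ?_, h4⟩
  intro v
  rw [hgv]
  have e1 : α v.1 = v.1 := h2 v.1
  have e2 : ψ v.2 = r • v.2 := h3 v.2
  rw [e1, e2]

/-- the relations between the parameters -/
theorem main_rel (X X' : K →ₗ[ZMod p] K →ₗ[ZMod p] (Fin n → ZMod p)) (S S' : K → (Fin n → ZMod p)) (θ : K)
    (g : (K × K) ≃ₗ[ZMod p] (K × K)) (h : (Fin n → ZMod p) ≃ₗ[ZMod p] (Fin n → ZMod p))
    (hB : ∀ v w, BX c X' (g v) (g w) = h (BX c X v w)) (hπ : ∀ v, pX c S' (Qk c θ) (g v) = h (pX c S (Qk c θ) v))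
    (r : ZMod p) (γ : K →ₗ[ZMod p] K) (hg : ∀ v, g v = (v.1, γ v.1 + r • v.2)) (hh : ∀ w, h w = r • w) :
    (∀ x x', X' x x' = r • X x x' - del c γ x x') ∧
      ∀ x, S' x = r • S x - (p.choose 2) • ps c (x * γ x) - Qk c θ (γ x) := by
  refine ⟨fun x x' => ?_, fun x => ?_⟩
  · have e := hB (x, 0) (x', 0)
    rw [hg, hg, hh, BX_apply, BX_apply] at e
    simp only [smul_zero, add_zero, mul_zero, zero_mul, sub_zero, map_zero, zero_add] at e
    rw [← e]
    unfold del
    rw [mul_comm x' (γ x), add_sub_cancel_left]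
  · have e := hπ (x, 0)
    rw [hg, hh] at e
    unfold pX at e
    simp only [smul_zero, add_zero, mul_zero, map_zero, zero_add] at e
    rw [← e]
    abel

end Pool.Agent.Helper79.CMC
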