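import Pool.Agent.Helper79.CMC.Main

/-!
# Counting Camina and Miller groups: the members of the family are rigid
-/

set_option autoImplicit false

namespace Pool.Agent.Helper79.CMC

open Pool.Agent.Helper3.CM Module

variable {p : ℕ} [Fact p.Prime] {K : Type*} [Field K] [Finite K] [Algebra (ZMod p) K] {n : ℕ} (c : Fin n → K)

theorem tr_pow [CharP K p] (z : K) : Algebra.trace (ZMod p) K (z ^ p) = Algebra.trace (ZMod p) K z := by
  have h := tr_inv (p := p) ((frob (p := p) (K := K)).toRingEquiv) z
  have h2 : (frob (p := p) (K := K)).toRingEquiv z = z ^ p := frob_apply z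
  rw [h2] at h
  exact h

/-- the coefficient `C(p,2)` and squares -/
theorem tr_choose [CharP K p] (a x : K) :
    ((p.choose 2 : ℕ) : ZMod p) * Algebra.trace (ZMod p) K (a * (x * x)) =
      ((p.choose 2 : ℕ) : ZMod p) * Algebra.trace (ZMod p) K ((frob (p := p) (K := K)).symm a * x) := by
  have hp : p.Prime := Fact.out
  rcases hp.eq_two_or_odd' with h2 | h2
  · have e : a * (x * x) = ((frob (p := p) (K := K)).symm a * x) ^ p := by
      rw [mul_pow, finv_pow]
      congr 1
      subst h2
      rw [pow_two]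
    rw [e, tr_pow]
  · have e : ((p.choose 2 : ℕ) : ZMod p) = 0 := by
      rw [ZMod.natCast_eq_zero_iff, Nat.choose_two_right]
      obtain ⟨k, hk⟩ := h2
      have h3 : p * (p - 1) / 2 = p * k := by
        have h4 : p - 1 = 2 * k := by omega
        rw [h4]
        have h5 : p * (2 * k) = p * k * 2 := by ring
        rw [h5, Nat.mul_div_cancel _ (by norm_num)]
      rw [h3]
      exact dvd_mul_right _ _
    rw [e, zero_mul, zero_mul]

theorem self_comm (hadj : Algebra.adjoin (ZMod p) (Set.range c) = ⊤) (i₀ : Fin n) (h0 : c i₀ = 1)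
    (γ : K →ₗ[ZMod p] K) (hγ : ∀ x x', del c γ x x' = 0) (x : K) : γ x = γ 1 * x := by
  have htr : ∀ i x x', Algebra.trace (ZMod p) K (c i * (x * γ x')) = Algebra.trace (ZMod p) K (c i * (x' * γ x)) := by
    intro i x x'
    have e := congrFun (hγ x x') i
    unfold del at e
    rw [ps_apply, mul_sub, map_sub] at e
    exact sub_eq_zero.1 e
  have hsa : ∀ x x', Algebra.trace (ZMod p) K (x * γ x') = Algebra.trace (ZMod p) K (x' * γ x) := by
    intro x x'
    have e := htr i₀ x x'
    rw [h0, one_mul, one_mul] at e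
    exact e
  have hcomm : ∀ i x, γ (c i * x) = c i * γ x := by
    intro i x
    apply tr_ext (p := p)
    intro w
    rw [mul_comm, ← hsa, mul_comm (c i * γ x) w, mul_assoc, htr i x w]
    congr 1
    ring
  let Q : Subalgebra (ZMod p) K :=
    { carrier := {l | ∀ x, γ (l * x) = l * γ x}
      mul_mem' := by
        intro a b ha hb x
        have ha' := ha (b * x)
        have hb' := hb x
        rw [mul_assoc, ha', hb', mul_assoc]
      add_mem' := by
        intro a b ha hb x
        have ha' := ha x
        have hb' := hb x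
        rw [add_mul, map_add, ha', hb', add_mul]
      algebraMap_mem' := by
        intro a x
        rw [← Algebra.smul_def, map_smul, Algebra.smul_def] }
  have hQ : Q = ⊤ := by
    rw [eq_top_iff, ← hadj]
    apply Algebra.adjoin_le
    rintro _ ⟨i, rfl⟩
    exact hcomm i
  have h1 : x ∈ Q := by
    rw [hQ]
    exact Algebra.mem_top
  have h2 : γ (x * 1) = x * γ 1 := h1 1
  rw [mul_one] at h2
  rw [h2, mul_comm]

/-- the members of the family with `X` not in the image of `δ` are rigid -/
theorem rigidX [CharP K p] (hc : LinearIndependent (ZMod p) c) (hn : 3 ≤ n) (i₀ i₁ : Fin n) {θ : K} (h0 : c i₀ = 1)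
    (h1 : c i₁ = θ) (hθ : Algebra.adjoin (ZMod p) {θ} = ⊤) (X : K →ₗ[ZMod p] K →ₗ[ZMod p] (Fin n → ZMod p))
    (hX : ∀ μ : K →ₗ[ZMod p] K, ¬ ∀ x x', X x x' = del c μ x x') (S : K → (Fin n → ZMod p)) (hS : S 0 = 0) :
    Rigid (BX c X) (pX c S (Qk c θ)) := by
  intro g h hB hπ
  obtain ⟨r, γ, hr, hg, hh⟩ := main_map c hc hn i₀ i₁ h0 h1 hθ X X hX S S hS hS g h hB hπ
  obtain ⟨h2, h3⟩ := main_rel c X X S S θ g h hB hπ r γ hg hh
  have hadj : Algebra.adjoin (ZMod p) (Set.range c) = ⊤ := by
    rw [eq_top_iff, ← hθ]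
    apply Algebra.adjoin_mono
    rintro _ rfl
    exact ⟨i₁, h1⟩
  have hr1 : r = 1 := by
    by_contra hne
    have hr' : r - 1 ≠ 0 := sub_ne_zero.2 hne
    apply hX ((r - 1)⁻¹ • γ)
    intro x x'
    have e : (r - 1) • X x x' = del c γ x x' := by
      have e1 := h2 x x'
      rw [sub_smul, one_smul]
      rw [eq_comm, sub_eq_iff_eq_add] at e1
      rw [e1]
      abel
    have e2 : del c ((r - 1)⁻¹ • γ) x x' = (r - 1)⁻¹ • del c γ x x' := by
      unfold del
      rw [← map_smul]
      congr 1
      simp only [LinearMap.smul_apply, smul_sub, mul_smul_comm]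
    rw [e2, ← e, smul_smul, inv_mul_cancel₀ hr', one_smul]
  subst hr1
  have hγ0 : ∀ x x', del c γ x x' = 0 := by
    intro x x'
    have e := h2 x x'
    rw [one_smul] at e
    exact sub_eq_self.1 e.symm
  have hγ := self_comm c hadj i₀ h0 γ hγ0
  set s : K := γ 1 with hs
  have hzero : ∀ i x, ((p.choose 2 : ℕ) : ZMod p) * Algebra.trace (ZMod p) K (c i * (x * γ x)) +
      Algebra.trace (ZMod p) K (kap (p := p) θ (c i) * γ x) = 0 := by
    intro i x
    have e := h3 x
    rw [one_smul, sub_sub] at e
    have e1 := congrFun (sub_eq_self.1 e.symm) i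
    rw [Pi.add_apply, Qk_apply, Pi.smul_apply, ps_apply, nsmul_eq_mul] at e1
    exact e1
  let Fi : K → K := (frob (p := p) (K := K)).symm
  have hFip : ∀ z, Fi z ^ p = z := fun z => finv_pow z
  have hd : LinearIndependent (ZMod p) (fun i => Fi (c i)) := by
    have h2 := hc.map' (frob (p := p) (K := K)).symm.toLinearMap
      (LinearMap.ker_eq_bot.2 (frob (p := p) (K := K)).symm.injective)
    exact h2
  have hkey : ∀ i, algebraMap (ZMod p) K (p.choose 2 : ℕ) * Fi (c i * s) + kap (p := p) θ (c i) * s = 0 := by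
    intro i
    apply tr_nondeg (p := p)
    intro w
    have e := hzero i w
    rw [hγ, show c i * (w * (s * w)) = (c i * s) * (w * w) from by ring, tr_choose] at e
    rw [add_mul, map_add, mul_assoc, ← Algebra.smul_def, map_smul, smul_eq_mul, mul_assoc]
    exact e
  have P := lin_poly (fun i => Fi (c i)) hd 2 (by omega)
    (fun j => if j = 0 then algebraMap (ZMod p) K (p.choose 2 : ℕ) * Fi s + θ * s else s) (by
      intro i
      have e := hkey i
      rw [kap_apply, show Fi (c i * s) = Fi (c i) * Fi s from map_mul _ _ _] at e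
      simp only [Finset.sum_range_succ, Finset.sum_range_zero, zero_add]
      simp only [if_true, one_ne_zero, if_false, pow_zero, pow_one, two_ne_zero]
      rw [show Fi (c i) ^ p ^ 2 = (Fi (c i) ^ p) ^ p from by rw [← pow_mul, pow_two], hFip]
      have e3 : (frob (p := p) (K := K)).symm (c i) = Fi (c i) := rfl
      rw [e3] at e
      linear_combination e)
  have p1 := P 1 (by omega)
  simp only [one_ne_zero, if_false] at p1
  intro v
  rw [hg, hγ, p1, zero_mul, zero_add, one_smul]

end Pool.Agent.Helper79.CMC
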